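import Pool.Agent.H474R4.BG.Iface

/-! Project BG, task BG1: one residue class. -/

set_option autoImplicit false

open Finset Filter

namespace Pool.Agent.H474R4.BG

open Pool.Agent.H387R2 Pool.Agent.H387R2.MB Pool.Agent.H378R2

open Classical in
/-- the second moment argument for disjoint sets of shifts -/
theorem secondBG {k K : ℕ} {δ c0 C1 C2 : ℝ} {N M y : ℕ} (hc0 : 0 < c0) (hC1 : 0 < C1)
    (hC2 : 0 < C2) (hlow : Low k K δ c0 N M y) (hup1 : Upp K δ C2 N M y)
    (hup2 : Upp (2 * K) δ C1 N M y) (hLL : 0 < LL ((N : ℝ) / 4)) (b I : ℕ) (R : ℕ → Finset ℕ)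
    (hI1 : (LL ((N : ℝ) / 4) * rho y) ^ K ≤ I) (hI2 : (I : ℝ) ≤ 2 * (LL ((N : ℝ) / 4) * rho y) ^ K)
    (hRc : ∀ i < I, (R i).card = K) (hRM : ∀ i < I, ∀ a ∈ R i, a ≤ M)
    (hRcop : ∀ i < I, ∀ a ∈ R i, Nat.Coprime (Uni.WW y) (b + a))
    (hdis : ∀ i < I, ∀ j < I, i ≠ j → Disjoint (R i) (R j)) :
    c0 ^ 2 / (2 * C2 + 4 * C1) * UU 0 ((N : ℝ) / 4) y ≤
      ∑ n ∈ Icc 1 ⌊3 * ((N : ℝ) / 4)⌋₊, nu ((N : ℝ) / 4) (Uni.WW y) b n *
        (if ∃ i < I, k + 1 ≤ ((R i).filter (fun a => (n + a).Prime)).card then 1 else 0) := by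
  set X := (N : ℝ) / 4 with hX
  set W := Uni.WW y with hW
  have hρ := rho_pos y
  set L : ℝ := (LL X * rho y) ^ K with hL
  have hL0 : 0 < L := by rw [hL]; positivity
  set U0 := UU 0 X y with hU0
  have hU00 : 0 ≤ U0 := UU_nonneg 0 hLL.le y
  have hUK : UU K X y = U0 * (1 / L) := by
    rw [hU0, hL]; unfold UU
    rw [pow_zero]
    ring
  have hU2 : UU (2 * K) X y = U0 * (1 / L ^ 2) := by
    rw [hU0, hL]; unfold UU
    rw [pow_zero, ← pow_mul, mul_comm 2 K]
    ring
  set G : ℕ → ℕ → ℝ := fun i n => if k + 1 ≤ ((R i).filter (fun a => (n + a).Prime)).card ∧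
    ∀ a ∈ R i, Rg δ X (n + a) then 1 else 0 with hG
  set P : ℕ → ℝ := fun n =>
    if ∃ i < I, k + 1 ≤ ((R i).filter (fun a => (n + a).Prime)).card then 1 else 0 with hP
  set J := Icc 1 ⌊3 * X⌋₊ with hJ
  set ν : ℕ → ℝ := fun n => nu X W b n with hν
  have hν0 : ∀ n, 0 ≤ ν n := fun n => nu_nonneg _ _ _ _
  set Z : ℕ → ℝ := fun n => ∑ i ∈ range I, G i n with hZ
  have hG0 : ∀ i n, 0 ≤ G i n := by
    intro i n
    simp only [hG]
    split_ifs <;> norm_num
  -- first moment
  have l1 : c0 * U0 ≤ ∑ n ∈ J, ν n * Z n := by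
    calc c0 * U0 = c0 * U0 * (L * (1 / L)) := by rw [mul_one_div_cancel hL0.ne', mul_one]
      _ = L * (c0 * (U0 * (1 / L))) := by ring
      _ ≤ (I : ℝ) * (c0 * (U0 * (1 / L))) := mul_le_mul_of_nonneg_right hI1 (by positivity)
      _ = ∑ _i ∈ range I, c0 * UU K X y := by
          rw [sum_const, card_range, nsmul_eq_mul, hUK]
      _ ≤ ∑ i ∈ range I, ∑ n ∈ J, ν n * G i n := by
          apply sum_le_sum
          intro i hi
          rw [mem_range] at hi
          exact hlow b (R i) (hRc i hi) (hRM i hi) (hRcop i hi)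
      _ = ∑ n ∈ J, ν n * Z n := by
          rw [sum_comm]
          apply sum_congr rfl
          intro n _
          have e0 : ν n * Z n = ν n * ∑ i ∈ range I, G i n := rfl
          rw [e0, mul_sum]
  -- second moment
  have hpair : ∀ i < I, ∀ j < I, ∑ n ∈ J, ν n * (G i n * G j n) ≤
      (if i = j then C2 * UU K X y else 0) + C1 * UU (2 * K) X y := by
    intro i hi j hj
    have hCU : 0 ≤ C1 * UU (2 * K) X y := mul_nonneg hC1.le (UU_nonneg _ hLL.le y)
    by_cases hij : i = j
    · subst hij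
      rw [if_pos rfl]
      have h1 := hup1 b (R i) (hRc i hi) (hRM i hi)
      have h2 : ∑ n ∈ J, ν n * (G i n * G i n) ≤ ∑ n ∈ J, ν n *
          (if ∀ a ∈ R i, Rg δ X (n + a) then 1 else 0) := by
        apply sum_le_sum
        intro n _
        apply mul_le_mul_of_nonneg_left _ (hν0 n)
        simp only [hG]
        split_ifs with h3 h4 h4
        · norm_num
        · exact absurd h3.2 h4
        · norm_num
        · norm_num
      have h3 : ∑ n ∈ J, ν n * (if ∀ a ∈ R i, Rg δ X (n + a) then 1 else 0) ≤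
          C2 * UU K X y := h1
      linarith
    · rw [if_neg hij, zero_add]
      have hc : (R i ∪ R j).card = 2 * K := by
        rw [card_union_of_disjoint (hdis i hi j hj hij), hRc i hi, hRc j hj]
        ring
      have h1 := hup2 b (R i ∪ R j) hc (by
        intro a ha
        rw [mem_union] at ha
        rcases ha with ha | ha
        · exact hRM i hi a ha
        · exact hRM j hj a ha)
      refine le_trans ?_ h1
      apply sum_le_sum
      intro n _
      apply mul_le_mul_of_nonneg_left _ (hν0 n)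
      simp only [hG]
      by_cases h3 : ∀ a ∈ R i ∪ R j, Rg δ X (n + a)
      · rw [if_pos h3]
        split_ifs <;> norm_num
      · rw [if_neg h3]
        by_cases h4 : ∀ a ∈ R i, Rg δ X (n + a)
        · have h5 : ¬ ∀ a ∈ R j, Rg δ X (n + a) := by
            intro h5
            apply h3
            intro a ha
            rw [mem_union] at ha
            rcases ha with ha | ha
            · exact h4 a ha
            · exact h5 a ha
          rw [if_neg (fun h => h5 h.2 :
            ¬ (k + 1 ≤ ((R j).filter (fun a => (n + a).Prime)).card ∧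
              ∀ a ∈ R j, Rg δ X (n + a))), mul_zero]
        · rw [if_neg (fun h => h4 h.2 :
            ¬ (k + 1 ≤ ((R i).filter (fun a => (n + a).Prime)).card ∧
              ∀ a ∈ R i, Rg δ X (n + a))), zero_mul]
  have u2 : ∑ n ∈ J, ν n * Z n ^ 2 ≤ (2 * C2 + 4 * C1) * U0 := by
    have e1 : ∑ n ∈ J, ν n * Z n ^ 2 =
        ∑ i ∈ range I, ∑ j ∈ range I, ∑ n ∈ J, ν n * (G i n * G j n) := by
      have e2 : ∀ n ∈ J, ν n * Z n ^ 2 = ∑ i ∈ range I, ∑ j ∈ range I, ν n * (G i n * G j n) := by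
        intro n _
        simp only [hZ]
        rw [sq, Finset.sum_mul_sum, mul_sum]
        apply sum_congr rfl
        intro i _
        rw [mul_sum]
      calc ∑ n ∈ J, ν n * Z n ^ 2 =
            ∑ n ∈ J, ∑ i ∈ range I, ∑ j ∈ range I, ν n * (G i n * G j n) := sum_congr rfl e2
        _ = ∑ i ∈ range I, ∑ n ∈ J, ∑ j ∈ range I, ν n * (G i n * G j n) := sum_comm
        _ = _ := sum_congr rfl (fun i _ => sum_comm)
    rw [e1]
    have e3 : ∑ i ∈ range I, ∑ j ∈ range I, ∑ n ∈ J, ν n * (G i n * G j n) ≤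
        ∑ i ∈ range I, ∑ j ∈ range I,
          ((if i = j then C2 * UU K X y else 0) + C1 * UU (2 * K) X y) := by
      apply sum_le_sum
      intro i hi
      apply sum_le_sum
      intro j hj
      exact hpair i (mem_range.1 hi) j (mem_range.1 hj)
    refine e3.trans ?_
    have e4 : ∑ i ∈ range I, ∑ j ∈ range I,
          ((if i = j then C2 * UU K X y else 0) + C1 * UU (2 * K) X y) =
        (I : ℝ) * (C2 * UU K X y) + (I : ℝ) ^ 2 * (C1 * UU (2 * K) X y) := by
      have e5 : ∀ i ∈ range I, ∑ j ∈ range I,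
          ((if i = j then C2 * UU K X y else 0) + C1 * UU (2 * K) X y) =
          C2 * UU K X y + (I : ℝ) * (C1 * UU (2 * K) X y) := by
        intro i hi
        rw [sum_add_distrib, sum_ite_eq, if_pos hi, sum_const, card_range, nsmul_eq_mul]
      rw [sum_congr rfl e5, sum_const, card_range, nsmul_eq_mul]
      ring
    rw [e4, hUK, hU2]
    have hI0 : (0 : ℝ) ≤ I := Nat.cast_nonneg _
    have f1 : (I : ℝ) * (C2 * (U0 * (1 / L))) ≤ 2 * C2 * U0 := by
      calc (I : ℝ) * (C2 * (U0 * (1 / L))) ≤ (2 * L) * (C2 * (U0 * (1 / L))) :=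
            mul_le_mul_of_nonneg_right hI2 (by positivity)
        _ = 2 * C2 * U0 * (L * (1 / L)) := by ring
        _ = 2 * C2 * U0 := by rw [mul_one_div_cancel hL0.ne', mul_one]
    have f2 : (I : ℝ) ^ 2 * (C1 * (U0 * (1 / L ^ 2))) ≤ 4 * C1 * U0 := by
      calc (I : ℝ) ^ 2 * (C1 * (U0 * (1 / L ^ 2))) ≤ (2 * L) ^ 2 * (C1 * (U0 * (1 / L ^ 2))) :=
            mul_le_mul_of_nonneg_right (pow_le_pow_left₀ hI0 hI2 2) (by positivity)
        _ = 4 * C1 * U0 * (L ^ 2 * (1 / L ^ 2)) := by ring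
        _ = 4 * C1 * U0 := by rw [mul_one_div_cancel (pow_ne_zero 2 hL0.ne'), mul_one]
    calc _ ≤ 2 * C2 * U0 + 4 * C1 * U0 := add_le_add f1 f2
      _ = _ := by ring
  -- conclusion
  set C' := 2 * C2 + 4 * C1 with hC'
  have hC'0 : 0 < C' := by rw [hC']; positivity
  set lam := C' / c0 with hlam
  have hlam0 : 0 < lam := by positivity
  have hPZ : ∀ n, P n = 1 ∨ (P n = 0 ∧ Z n = 0) := by
    intro n
    by_cases h : ∃ i < I, k + 1 ≤ ((R i).filter (fun a => (n + a).Prime)).card
    · left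
      simp only [hP]
      rw [if_pos h]
    · right
      constructor
      · simp only [hP]
        rw [if_neg h]
      · simp only [hZ]
        apply sum_eq_zero
        intro i hi
        simp only [hG]
        rw [if_neg]
        intro h2
        exact h ⟨i, mem_range.1 hi, h2.1⟩
  have m1 : ∑ n ∈ J, ν n * Z n ≤
      lam / 2 * ∑ n ∈ J, ν n * P n + 1 / (2 * lam) * ∑ n ∈ J, ν n * Z n ^ 2 := by
    rw [mul_sum, mul_sum, ← sum_add_distrib]
    apply sum_le_sum
    intro n _
    have h1 : Z n ≤ lam / 2 * P n + 1 / (2 * lam) * Z n ^ 2 := by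
      rcases hPZ n with h | ⟨h, h'⟩
      · rw [h, mul_one]
        have h2 : 0 ≤ (lam - Z n) ^ 2 := sq_nonneg _
        have h5 : lam / 2 + 1 / (2 * lam) * Z n ^ 2 = (lam ^ 2 + Z n ^ 2) / (2 * lam) := by
          field_simp
        rw [h5, le_div_iff₀ (by positivity)]
        nlinarith
      · rw [h, h']
        norm_num
    calc ν n * Z n ≤ ν n * (lam / 2 * P n + 1 / (2 * lam) * Z n ^ 2) :=
          mul_le_mul_of_nonneg_left h1 (hν0 n)
      _ = _ := by ring
  have m2 : 1 / (2 * lam) * ∑ n ∈ J, ν n * Z n ^ 2 ≤ c0 / 2 * U0 := by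
    calc _ ≤ 1 / (2 * lam) * (C' * U0) := mul_le_mul_of_nonneg_left u2 (by positivity)
      _ = c0 / 2 * U0 := alg4 hc0 hC'0
  have m4 : c0 ^ 2 / C' * U0 ≤ ∑ n ∈ J, ν n * P n := by
    have h1 : c0 * U0 ≤ lam * ∑ n ∈ J, ν n * P n := by linarith
    have h2 : c0 ^ 2 / C' * U0 = (c0 * U0) / lam := alg3 hc0 hC'0
    rw [h2, div_le_iff₀ hlam0]
    linarith
  exact m4

lemma rho_geBG {y : ℕ} (hy : 1 ≤ y) : 1 / (y:ℝ) ≤ rho y := by
  rw [rho_eq]
  have h1 : ∀ n : ℕ, 1 ≤ n → ∏ i ∈ Icc 2 n, (1 - 1 / (i:ℝ)) = 1 / n := by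
    intro n hn
    induction n, hn using Nat.le_induction with
    | base => simp
    | succ n hn ih =>
      rw [prod_Icc_succ_top (by omega), ih]
      have h1 : (n:ℝ) ≠ 0 := by exact_mod_cast (by omega : n ≠ 0)
      have h2 : ((n:ℝ) + 1) ≠ 0 := by positivity
      push_cast
      field_simp
      ring
  rw [← h1 y hy]
  have hsub : (y + 1).primesBelow ⊆ Icc 2 y := by
    intro p hp
    rw [Nat.mem_primesBelow] at hp
    rw [mem_Icc]
    exact ⟨hp.2.two_le, by omega⟩
  rw [← prod_sdiff hsub]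
  have h2 : ∏ i ∈ Icc 2 y \ (y + 1).primesBelow, (1 - 1 / (i:ℝ)) ≤ 1 := by
    apply prod_le_one
    · intro i hi
      rw [Finset.mem_sdiff, mem_Icc] at hi
      have : (2:ℝ) ≤ i := by exact_mod_cast hi.1.1
      rw [sub_nonneg, div_le_one (by linarith)]
      linarith
    · intro i _
      have : (0:ℝ) ≤ 1 / (i:ℝ) := by positivity
      linarith
  have h3 : 0 ≤ ∏ p ∈ (y + 1).primesBelow, (1 - 1 / (p:ℝ)) := by
    rw [← rho_eq]; exact (rho_pos y).le
  calc _ ≤ 1 * ∏ p ∈ (y + 1).primesBelow, (1 - 1 / (p:ℝ)) := mul_le_mul_of_nonneg_right h2 h3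
    _ = _ := one_mul _

lemma WW_le_sq {l : ℝ} {y : ℕ} (hl : 0 < l) (hy : (y : ℝ) ≤ Real.log l) :
    (Uni.WW y : ℝ) ≤ l ^ 2 := by
  have h1 : (Uni.WW y : ℝ) ≤ 4 ^ y := by exact_mod_cast Uni.WW_le y
  refine h1.trans ?_
  have h2 : (4 : ℝ) ≤ Real.exp 2 := by
    have h3 : (2 : ℝ) ≤ Real.exp 1 := by
      have := Real.add_one_le_exp (1 : ℝ)
      linarith
    have h4 : Real.exp 2 = Real.exp 1 * Real.exp 1 := by
      rw [← Real.exp_add]; norm_num
    rw [h4]
    nlinarith
  calc (4 : ℝ) ^ y ≤ (Real.exp 2) ^ y := pow_le_pow_left₀ (by norm_num) h2 _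
    _ = Real.exp (y * 2) := by rw [← Real.exp_nat_mul]
    _ ≤ Real.exp (Real.log l * 2) := Real.exp_le_exp.2 (by linarith)
    _ = l ^ 2 := by
        rw [mul_comm, ← Real.exp_log hl, ← Real.exp_nat_mul]
        norm_num

theorem classBG : ClassBG := by
  classical
  intro k
  obtain ⟨K, hK, δ, hδ, c0, hc0, hlow⟩ := low_eventually k
  obtain ⟨C2, hC2, hup1⟩ := upp_eventually K hδ
  obtain ⟨C1, hC1, hup2⟩ := upp_eventually (2 * K) hδ
  refine ⟨K, c0 ^ 2 / (2 * C2 + 4 * C1) / 80, hK, by positivity, fun H hHK => ?_⟩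
  obtain ⟨p0, hp0, hp0p⟩ := Nat.exists_infinite_primes (H.sup id + 1)
  have tN : Tendsto (fun N : ℕ => (N : ℝ)) atTop atTop := tendsto_natCast_atTop_atTop
  have tl : Tendsto (fun N : ℕ => Real.log (N : ℝ)) atTop atTop :=
    Real.tendsto_log_atTop.comp tN
  have tll : Tendsto (fun N : ℕ => Real.log (Real.log (N : ℝ))) atTop atTop :=
    Real.tendsto_log_atTop.comp tl
  have e4 := tl.eventually (Uni.log_pow_small 1 (η := 1 / 400) (by norm_num))
  filter_upwards [hlow ((K + 4 : ℕ) : ℝ), hup1 ((K + 4 : ℕ) : ℝ), hup2 ((K + 4 : ℕ) : ℝ), e4,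
    tll.eventually_ge_atTop 1, tll.eventually_ge_atTop (p0 : ℝ),
    tl.eventually_ge_atTop (((H.sup id : ℕ) : ℝ) + 2), eventually_ge_atTop 160]
    with N h1 h2 h3 h4 h5 h5' h6 h7
  intro b hb
  set X := (N : ℝ) / 4 with hX
  set l := Real.log (N : ℝ) with hl
  set y := ⌊Real.log l⌋₊ with hy
  have hWN : WN N = Uni.WW y := rfl
  rw [hWN] at hb ⊢
  set W := Uni.WW y with hW
  have hW0 : 0 < W := Uni.WW_pos y
  have hW0R : (0 : ℝ) < W := by exact_mod_cast hW0
  have hN : (160 : ℝ) ≤ N := by exact_mod_cast h7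
  have hs0 : (0 : ℝ) ≤ ((H.sup id : ℕ) : ℝ) := Nat.cast_nonneg _
  have hl2 : 2 ≤ l := by linarith only [h6, hs0]
  have hy1 : 1 ≤ y := Nat.le_floor (by exact_mod_cast h5)
  have hyp : p0 ≤ y := Nat.le_floor h5'
  have hyR : (y : ℝ) ≤ Real.log l := Nat.floor_le (by linarith)
  have hWH : ∀ h ∈ H, h < W := by
    intro h hh
    have g1 : p0 ∣ W := (dvd_WW hp0p).2 hyp
    have g2 : p0 ≤ W := Nat.le_of_dvd hW0 g1
    have g3 : h ≤ H.sup id := Finset.le_sup (f := id) hh
    omega
  have hW2 : (W : ℝ) ≤ l ^ 2 := WW_le_sq (by linarith only [hl2]) hyR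
  have hρ1 := rho_geBG hy1
  have hρ := rho_pos y
  have hρ2 := rho_le_one y
  have hlogX : Real.log X = l - Real.log 4 :=
    Real.log_div (by linarith : (0 : ℝ) < N).ne' (by norm_num)
  have hlog4 : 2 * Real.log 4 ≤ l := by
    have g1 : Real.log (4 ^ 2) ≤ Real.log N := Real.log_le_log (by norm_num) (by linarith)
    rw [Real.log_pow] at g1
    push_cast at g1
    exact g1
  have hlog40 : 0 ≤ Real.log 4 := Real.log_nonneg (by norm_num)
  have hLL1 : l / 400 ≤ LL X := by
    unfold LL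
    rw [hlogX]
    linarith
  have hLL2 : LL X ≤ l := by
    unfold LL
    rw [hlogX]
    linarith only [hl2, hlog40]
  have hLL0 : 0 < LL X := by linarith only [hLL1, hl2]
  have hyR0 : (0 : ℝ) < y := by exact_mod_cast hy1
  have hl1 : 1 ≤ LL X * rho y := by
    rw [Real.rpow_one] at h4
    have g1 : (y : ℝ) ≤ LL X := by linarith
    calc (1 : ℝ) = (y : ℝ) * (1 / y) := by field_simp
      _ ≤ LL X * rho y := mul_le_mul g1 hρ1 (by positivity) hLL0.le
  set L : ℝ := (LL X * rho y) ^ K with hL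
  have hL1 : 1 ≤ L := one_le_pow₀ hl1
  have hLl : L ≤ l ^ K := by
    apply pow_le_pow_left₀ (by linarith)
    calc LL X * rho y ≤ LL X * 1 := mul_le_mul_of_nonneg_left hρ2 hLL0.le
      _ ≤ l := by linarith
  set I := ⌈L⌉₊ with hI
  have hI1 : L ≤ I := Nat.le_ceil L
  have hI2 : (I : ℝ) ≤ 2 * L := by
    have := Nat.ceil_lt_add_one (by linarith : 0 ≤ L)
    linarith
  set R : ℕ → Finset ℕ := fun i => H.image (fun h => h + W * i) with hR
  have hinj : ∀ i, Function.Injective (fun h : ℕ => h + W * i) := by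
    intro i a c hac
    have : a + W * i = c + W * i := hac
    omega
  have hWi : ∀ i < I, ((W * i : ℕ) : ℝ) ≤ l ^ (K + 3) := by
    intro i hi
    have g1 : (i : ℝ) ≤ 2 * l ^ K := by
      have : (i : ℝ) ≤ I := by exact_mod_cast hi.le
      linarith
    push_cast
    calc (W : ℝ) * i ≤ l ^ 2 * (2 * l ^ K) :=
          mul_le_mul hW2 g1 (Nat.cast_nonneg _) (by positivity)
      _ = 2 * l ^ (K + 2) := by ring
      _ ≤ l * l ^ (K + 2) := mul_le_mul_of_nonneg_right hl2 (by positivity)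
      _ = l ^ (K + 3) := by ring
  have hmain := secondBG hc0 hC1 hC2 h1 h2 h3 hLL0 b I R hI1 hI2
    (by
      intro i _
      simp only [hR]
      rw [card_image_of_injective _ (hinj i), hHK])
    (by
      intro i hi a ha
      simp only [hR] at ha
      rw [mem_image] at ha
      obtain ⟨h, hh, rfl⟩ := ha
      apply Nat.le_floor
      rw [Real.rpow_natCast]
      have g1 := hWi i hi
      have g2 : (h : ℝ) ≤ ((H.sup id : ℕ) : ℝ) := by
        exact_mod_cast Finset.le_sup (f := id) hh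
      have g3 : 1 ≤ l ^ (K + 3) := one_le_pow₀ (by linarith only [hl2])
      have g4 : l ^ (K + 3) * (((H.sup id : ℕ) : ℝ) + 2) ≤ l ^ (K + 3) * l :=
        mul_le_mul_of_nonneg_left h6 (by linarith)
      have g5 : l ^ (K + 4) = l ^ (K + 3) * l := by ring
      rw [g5]
      push_cast at g1 ⊢
      nlinarith)
    (by
      intro i hi a ha
      simp only [hR] at ha
      rw [mem_image] at ha
      obtain ⟨h, hh, rfl⟩ := ha
      have g1 := hb h hh
      rw [show b + (h + W * i) = (b + h) + W * i by ring]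
      exact (Nat.coprime_add_mul_left_right W (b + h) i).2 g1)
    (by
      intro i hi j hj hij
      rw [Finset.disjoint_left]
      intro a ha ha'
      simp only [hR] at ha ha'
      rw [mem_image] at ha ha'
      obtain ⟨h, hh, e⟩ := ha
      obtain ⟨h', hh', e'⟩ := ha'
      have g0 : h + W * i = h' + W * j := by rw [e, e']
      have g1 : (h + W * i) % W = (h' + W * j) % W := by rw [g0]
      rw [Nat.add_mul_mod_self_left, Nat.add_mul_mod_self_left, Nat.mod_eq_of_lt (hWH h hh),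
        Nat.mod_eq_of_lt (hWH h' hh')] at g1
      subst g1
      have g2 : W * i = W * j := by omega
      exact hij (Nat.eq_of_mul_eq_mul_left hW0 g2))
  set T := (Icc 1 N).filter (fun n => n ≡ b [MOD W] ∧
      ∃ i : ℕ, ((W * i : ℕ) : ℝ) ≤ l ^ (K + 3) ∧
        k + 1 ≤ (H.filter (fun h => (n + W * i + h).Prime)).card) with hT
  have hU : X / 20 * (1 / W) ≤ UU 0 X y := by
    have g0 : UU 0 X y = MPhi X * (1 / (W : ℝ)) := by
      have g00 : UU 0 X y = (MPhi X * (1 / (W : ℝ))) * (1 / (LL X * rho y) ^ 0) := rfl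
      rw [g00, pow_zero, div_one, mul_one]
    rw [g0]
    have g1 := MPhi_ge X (by rw [hX]; linarith)
    have g2 : X / 20 * (1 / (W : ℝ)) ≤ MPhi X * (1 / (W : ℝ)) :=
      mul_le_mul_of_nonneg_right g1 (by positivity)
    linarith
  have hup : ∑ n ∈ Icc 1 ⌊3 * X⌋₊, nu X W b n *
      (if ∃ i < I, k + 1 ≤ ((R i).filter (fun a => (n + a).Prime)).card then 1 else 0) ≤
      (T.card : ℝ) := by
    calc _ ≤ ∑ n ∈ Icc 1 ⌊3 * X⌋₊, (if n ∈ T then (1 : ℝ) else 0) := by
          apply sum_le_sum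
          intro n hn
          by_cases g1 : n ≡ b [MOD W] ∧
            ∃ i < I, k + 1 ≤ ((R i).filter (fun a => (n + a).Prime)).card
          · obtain ⟨g2, i, hi, g3⟩ := g1
            have hnT : n ∈ T := by
              rw [hT, mem_filter, mem_Icc]
              rw [mem_Icc] at hn
              refine ⟨⟨hn.1, ?_⟩, g2, i, hWi i hi, ?_⟩
              · have g4 : (n : ℝ) ≤ 3 * X := (Nat.le_floor_iff (by rw [hX]; linarith)).1 hn.2
                have g5 : (n : ℝ) ≤ N := by
                  rw [hX] at g4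
                  linarith
                exact_mod_cast g5
              · simp only [hR] at g3
                rw [filter_image, card_image_of_injective _ (hinj i)] at g3
                have g6 : (H.filter (fun h => (n + (h + W * i)).Prime)) =
                    (H.filter (fun h => (n + W * i + h).Prime)) := by
                  apply filter_congr
                  intro h _
                  rw [show n + (h + W * i) = n + W * i + h by ring]
                rw [← g6]
                exact g3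
            rw [if_pos hnT, if_pos ⟨i, hi, g3⟩, mul_one]
            unfold nu
            rw [if_pos g2]
            exact Phi_le_one _
          · have g4 : nu X W b n *
                (if ∃ i < I, k + 1 ≤ ((R i).filter (fun a => (n + a).Prime)).card
                  then (1 : ℝ) else 0) = 0 := by
              by_cases g2 : n ≡ b [MOD W]
              · rw [if_neg (fun g3 => g1 ⟨g2, g3⟩), mul_zero]
              · unfold nu
                rw [if_neg g2, zero_mul]
            rw [g4]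
            split_ifs <;> norm_num
      _ = (((Icc 1 ⌊3 * X⌋₊).filter (fun n => n ∈ T)).card : ℝ) := by
          rw [← sum_filter, sum_const, nsmul_eq_mul, mul_one]
      _ ≤ (T.card : ℝ) := by
          have : ((Icc 1 ⌊3 * X⌋₊).filter (fun n => n ∈ T)).card ≤ T.card := by
            apply card_le_card
            intro n hn
            exact (mem_filter.1 hn).2
          exact_mod_cast this
  have hC' : 0 < c0 ^ 2 / (2 * C2 + 4 * C1) := by positivity
  calc c0 ^ 2 / (2 * C2 + 4 * C1) / 80 * ((N : ℝ) / W) =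
        c0 ^ 2 / (2 * C2 + 4 * C1) * (X / 20 * (1 / W)) := by
          rw [hX]
          ring
    _ ≤ c0 ^ 2 / (2 * C2 + 4 * C1) * UU 0 X y := mul_le_mul_of_nonneg_left hU hC'.le
    _ ≤ _ := hmain
    _ ≤ _ := hup

end Pool.Agent.H474R4.BG
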