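import Pool.Agent.H474R4.BG.Iface

/-!
BG2 (helper949): bounded gaps in a positive proportion of all intervals of polylogarithmic length,
from the statement for residue classes.
-/

set_option autoImplicit false

open Finset Filter

namespace Pool.Agent.H474R4.BG

open Pool.Agent.H387R2 Pool.Agent.H387R2.MB Pool.Agent.H378R2

private lemma BG2_dvd_WW {q y : ℕ} (hq : q.Prime) (h : q ∣ Uni.WW y) : q ≤ y := by
  have h1 : q ∈ (Uni.WW y).primeFactors :=
    Nat.mem_primeFactors.2 ⟨hq, h, (Uni.WW_pos y).ne'⟩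
  rw [Uni.WW_factors, Nat.mem_primesBelow] at h1
  omega

private lemma BG2_WW_dvd {q y : ℕ} (hq : q.Prime) (h : q ≤ y) : q ∣ Uni.WW y := by
  have h1 : q ∈ (Uni.WW y).primeFactors := by
    rw [Uni.WW_factors, Nat.mem_primesBelow]
    exact ⟨by omega, hq⟩
  exact (Nat.mem_primeFactors.1 h1).2.1

/-- the choice of the class -/
private lemma BG2_class (K y : ℕ) : ∃ b : ℕ, ∀ j < K,
    Nat.Coprime (Uni.WW y) (b + j * Uni.WW K) := by
  set P := Uni.WW K with hP
  set W2 : ℕ := ∏ p ∈ (y + 1).primesBelow.filter (fun p => K < p), p with hW2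
  have hcop : Nat.Coprime P W2 := by
    rw [hW2]
    apply Nat.Coprime.prod_right
    intro q hq
    rw [Finset.mem_filter, Nat.mem_primesBelow] at hq
    rw [Nat.coprime_comm, hq.1.2.coprime_iff_not_dvd]
    intro h
    have := BG2_dvd_WW hq.1.2 h
    omega
  obtain ⟨b, hb1, hb2⟩ := Nat.chineseRemainder hcop 1 P
  refine ⟨b, fun j hj => ?_⟩
  apply Nat.coprime_of_dvd
  intro q hq hqW hqb
  have hqy := BG2_dvd_WW hq hqW
  by_cases hqK : q ≤ K
  · have hqP : q ∣ P := BG2_WW_dvd hq hqK
    have h1 : q ∣ b := (Nat.dvd_add_left (Dvd.dvd.mul_left hqP j)).1 hqb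
    have h2 : b ≡ 1 [MOD q] := hb1.of_dvd hqP
    have h3 : 1 ≡ 0 [MOD q] := h2.symm.trans ((Nat.modEq_zero_iff_dvd).2 h1)
    have h4 : q ∣ 1 := (Nat.modEq_zero_iff_dvd).1 h3
    exact hq.one_lt.ne' (Nat.dvd_one.1 h4)
  · have hqK' : K < q := by omega
    have hqW2 : q ∣ W2 := by
      rw [hW2]
      apply Finset.dvd_prod_of_mem
      rw [Finset.mem_filter, Nat.mem_primesBelow]
      exact ⟨⟨by omega, hq⟩, hqK'⟩
    have h2 : b ≡ P [MOD q] := hb2.of_dvd hqW2
    have h3 : b + j * P ≡ P + j * P [MOD q] := Nat.ModEq.add_right _ h2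
    have h4 : b + j * P ≡ 0 [MOD q] := (Nat.modEq_zero_iff_dvd).2 hqb
    have h5 : q ∣ P + j * P := (Nat.modEq_zero_iff_dvd).1 (h3.symm.trans h4)
    have h6 : P + j * P = (j + 1) * P := by ring
    rw [h6] at h5
    rcases hq.dvd_mul.1 h5 with h7 | h7
    · have := Nat.le_of_dvd (Nat.succ_pos j) h7
      omega
    · have := BG2_dvd_WW hq h7
      omega

private lemma BG2_WN_le (N : ℕ) (h1 : 1 ≤ Real.log N) : (WN N : ℝ) ≤ Real.log N ^ 2 := by
  unfold WN
  set y := ⌊Real.log (Real.log N)⌋₊ with hy
  have hLL : 0 ≤ Real.log (Real.log N) := Real.log_nonneg h1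
  have h2 : (y : ℝ) ≤ Real.log (Real.log N) := Nat.floor_le hLL
  have h3 : (Uni.WW y : ℝ) ≤ (4 : ℝ) ^ y := by exact_mod_cast Uni.WW_le y
  have h4 : (4 : ℝ) ≤ Real.exp 2 := by
    have h5 : Real.exp 2 = Real.exp 1 * Real.exp 1 := by
      rw [← Real.exp_add]
      norm_num
    rw [h5]
    have h6 := Real.exp_one_gt_d9
    nlinarith
  calc (Uni.WW y : ℝ) ≤ (4 : ℝ) ^ y := h3
    _ ≤ (Real.exp 2) ^ y := by gcongr
    _ = Real.exp (2 * y) := by rw [← Real.exp_nat_mul]; ring_nf
    _ ≤ Real.exp (2 * Real.log (Real.log N)) := by gcongr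
    _ = Real.log N ^ 2 := by
      rw [two_mul, Real.exp_add, Real.exp_log (by linarith), sq]

private lemma BG2_small (ε : ℝ) (hε : 0 < ε) :
    ∀ᶠ N : ℕ in atTop, Real.log N ^ 2 * (Real.sqrt N + 1 + Real.log N ^ 2) ≤ ε * N := by
  have tN : Tendsto (fun N : ℕ => (N : ℝ)) atTop atTop := tendsto_natCast_atTop_atTop
  have tL : Tendsto (fun N : ℕ => Real.log (N : ℝ)) atTop atTop :=
    Real.tendsto_log_atTop.comp tN
  have h1 := (Real.isLittleO_pow_log_id_atTop (n := 8)).def (c := (ε / 3) ^ 2) (by positivity)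
  filter_upwards [tN.eventually h1, tL.eventually (eventually_ge_atTop 1),
    eventually_ge_atTop 1] with N h2 h3 h4
  have hN : (1 : ℝ) ≤ N := by exact_mod_cast h4
  set L := Real.log (N : ℝ) with hL
  simp only [id, Real.norm_eq_abs] at h2
  rw [abs_of_nonneg (by positivity : (0 : ℝ) ≤ L ^ 8), abs_of_nonneg (by linarith)] at h2
  set s := Real.sqrt N with hs
  have hs2 : s ^ 2 = N := Real.sq_sqrt (by linarith)
  have hs1 : 1 ≤ s := by
    rw [hs]
    exact Real.one_le_sqrt.2 hN
  have h5 : L ^ 4 ≤ ε / 3 * s := by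
    have h6 : (L ^ 4) ^ 2 ≤ (ε / 3 * s) ^ 2 := by
      rw [mul_pow, hs2, ← pow_mul]
      exact h2
    exact le_of_sq_le_sq h6 (by positivity)
  have hL2 : L ^ 2 ≤ L ^ 4 := pow_le_pow_right₀ h3 (by norm_num)
  have hL4 : 1 ≤ L ^ 4 := one_le_pow₀ h3
  have hL20 : 0 ≤ L ^ 2 := by positivity
  have e1 : L ^ 2 * (s + 1 + L ^ 2) = L ^ 2 * s + L ^ 2 + L ^ 4 := by ring
  rw [e1]
  have e2 : L ^ 2 * s ≤ L ^ 4 * s := by
    apply mul_le_mul_of_nonneg_right hL2 (by linarith)
  have e3 : L ^ 2 ≤ L ^ 4 * s := by nlinarith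
  have e4 : L ^ 4 ≤ L ^ 4 * s := by nlinarith
  have e5 : L ^ 4 * s ≤ ε / 3 * s * s := mul_le_mul_of_nonneg_right h5 (by linarith)
  have e6 : ε / 3 * s * s = ε / 3 * N := by rw [← hs2]; ring
  nlinarith

/-- the length of the window -/
private lemma BG2_len (K B : ℕ) : ∀ᶠ N : ℕ in atTop,
    Real.log N ^ 2 + Real.log N ^ (K + 3) + B ≤ (Real.log N / 2) ^ (K + 5) := by
  have tL : Tendsto (fun N : ℕ => Real.log (N : ℝ)) atTop atTop :=
    Real.tendsto_log_atTop.comp tendsto_natCast_atTop_atTop
  filter_upwards [tL.eventually (eventually_ge_atTop (3 * (2 : ℝ) ^ (K + 5) + (B : ℝ)))] with N h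
  set L := Real.log (N : ℝ) with hL
  have hB : (0 : ℝ) ≤ B := Nat.cast_nonneg B
  have h2 : (1 : ℝ) ≤ 2 ^ (K + 5) := one_le_pow₀ (by norm_num)
  have hL1 : 1 ≤ L := by linarith
  have e1 : L ^ 2 ≤ L ^ (K + 3) := pow_le_pow_right₀ hL1 (by omega)
  have e2 : (B : ℝ) ≤ L ^ (K + 3) := by
    calc (B : ℝ) ≤ L := by linarith
      _ = L ^ 1 := (pow_one L).symm
      _ ≤ L ^ (K + 3) := pow_le_pow_right₀ hL1 (by omega)
  have e3 : (L / 2) ^ (K + 5) = L ^ (K + 3) * (L ^ 2 / 2 ^ (K + 5)) := by
    rw [div_pow]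
    ring
  rw [e3]
  have e4 : 3 ≤ L ^ 2 / 2 ^ (K + 5) := by
    rw [le_div_iff₀ (by positivity)]
    nlinarith
  have e5 : 0 ≤ L ^ (K + 3) := by positivity
  nlinarith

open Classical in
/-- BG2 -/
theorem finalBG_of : ClassBG → FinalBG := by
  intro hC m
  obtain ⟨K, c, hK, hc, hH⟩ := hC m
  set P := Uni.WW K with hP
  have hPpos : 0 < P := Uni.WW_pos K
  set H : Finset ℕ := (range K).image (fun j => j * P) with hHdef
  have hHcard : H.card = K := by
    rw [hHdef, card_image_of_injective, card_range]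
    intro a b hab
    exact Nat.eq_of_mul_eq_mul_right hPpos hab
  set B : ℕ := K * P with hB
  refine ⟨K + 5, B, c / 2, by positivity, ?_⟩
  have tN : Tendsto (fun N : ℕ => (N : ℝ)) atTop atTop := tendsto_natCast_atTop_atTop
  have tL : Tendsto (fun N : ℕ => Real.log (N : ℝ)) atTop atTop :=
    Real.tendsto_log_atTop.comp tN
  have main : ∀ᶠ N : ℕ in atTop, c / 2 * N ≤
      (((range N).filter (fun x : ℕ => ∃ p : ℕ, x < p ∧
        (p + B : ℝ) ≤ x + Real.log x ^ (K + 5) ∧
        m ≤ ((Icc p (p + B)).filter Nat.Prime).card)).card : ℝ) := by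
    filter_upwards [hH H hHcard, BG2_small (c / 2) (by positivity), BG2_len K B,
      tL.eventually (eventually_ge_atTop 1), eventually_ge_atTop 2] with N h1 h2 h3 h4 h5
    obtain ⟨b, hb⟩ := BG2_class K ⌊Real.log (Real.log N)⌋₊
    have h6 := h1 b (by
      intro h hh
      rw [hHdef, mem_image] at hh
      obtain ⟨j, hj, rfl⟩ := hh
      exact hb j (mem_range.1 hj))
    set W := WN N with hW
    have hWpos : 0 < W := Uni.WW_pos _
    have hWle : (W : ℝ) ≤ Real.log N ^ 2 := BG2_WN_le N h4
    set S := (Icc 1 N).filter (fun n => n ≡ b [MOD W] ∧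
      ∃ i : ℕ, ((W * i : ℕ) : ℝ) ≤ Real.log N ^ (K + 3) ∧
        m + 1 ≤ (H.filter (fun h => (n + W * i + h).Prime)).card) with hS
    set R : ℕ := Nat.sqrt N + 1 + W with hR
    set S' := S.filter (fun n => R ≤ n) with hS'
    set G := (range N).filter (fun x : ℕ => ∃ p : ℕ, x < p ∧
        (p + B : ℝ) ≤ x + Real.log x ^ (K + 5) ∧
        m ≤ ((Icc p (p + B)).filter Nat.Prime).card) with hG
    have hcardS : S.card ≤ S'.card + R := by
      have e1 : S ⊆ S' ∪ range R := by
        intro n hn
        rw [mem_union, hS', mem_filter, mem_range]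
        by_cases h : R ≤ n
        · exact Or.inl ⟨hn, h⟩
        · exact Or.inr (by omega)
      calc S.card ≤ (S' ∪ range R).card := card_le_card e1
        _ ≤ S'.card + (range R).card := card_union_le _ _
        _ = S'.card + R := by rw [card_range]
    have hcardG : S'.card * W ≤ G.card := by
      have e1 : (S' ×ˢ range W).card ≤ G.card := by
        apply Finset.card_le_card_of_injOn (fun q : ℕ × ℕ => q.1 - 1 - q.2)
        · rintro ⟨n, j⟩ hq
          rw [Finset.mem_coe, mem_product] at hq
          obtain ⟨hn, hj⟩ := hq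
          simp only at hn hj
          rw [hS', mem_filter, hS, mem_filter, mem_Icc] at hn
          rw [mem_range] at hj
          obtain ⟨⟨⟨hn1, hn2⟩, hnb, i, hi, hpr⟩, hRn⟩ := hn
          rw [Finset.mem_coe, hG, mem_filter, mem_range]
          simp only
          set x := n - 1 - j with hx
          have hxn : x + 1 + j = n := by omega
          refine ⟨by omega, n + W * i, ?_, ?_, ?_⟩
          · have := Nat.zero_le (W * i)
            omega
          · have hxs : Nat.sqrt N + 1 ≤ x := by omega
            have hxx : N ≤ x * x := by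
              have h7 := Nat.lt_succ_sqrt N
              have h8 : (Nat.sqrt N + 1) * (Nat.sqrt N + 1) ≤ x * x := Nat.mul_le_mul hxs hxs
              exact (h7.le).trans h8
            have hx0 : (0 : ℝ) < x := by
              have : 0 < x := by omega
              exact_mod_cast this
            have hlogx : Real.log N / 2 ≤ Real.log x := by
              have h7 : (N : ℝ) ≤ x * x := by exact_mod_cast hxx
              have h8 : (0 : ℝ) < N := by
                have : 0 < N := by omega
                exact_mod_cast this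
              have h9 := Real.log_le_log h8 h7
              rw [Real.log_mul hx0.ne' hx0.ne'] at h9
              linarith
            have hpow : (Real.log N / 2) ^ (K + 5) ≤ Real.log x ^ (K + 5) := by
              gcongr
            have hxn' : (n : ℝ) = x + 1 + j := by exact_mod_cast hxn.symm
            have hjW : (j : ℝ) + 1 ≤ W := by exact_mod_cast hj
            push_cast at hi ⊢
            rw [hxn']
            linarith
          · have e2 : ((H.filter (fun h => (n + W * i + h).Prime)).image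
                (fun h => n + W * i + h)).card ≤
                ((Icc (n + W * i) (n + W * i + B)).filter Nat.Prime).card := by
              apply card_le_card
              intro r hr
              rw [mem_image] at hr
              obtain ⟨h, hh, rfl⟩ := hr
              rw [mem_filter] at hh
              rw [mem_filter, mem_Icc]
              refine ⟨⟨by omega, ?_⟩, hh.2⟩
              have hhH := hh.1
              rw [hHdef, mem_image] at hhH
              obtain ⟨j', hj', rfl⟩ := hhH
              have : j' * P ≤ K * P := Nat.mul_le_mul_right P (mem_range.1 hj').le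
              rw [hB]
              omega
            rw [card_image_of_injective _ (fun a b hab => by simpa using hab)] at e2
            omega
        · rintro ⟨n, j⟩ hq ⟨n', j'⟩ hq' heq
          rw [Finset.mem_coe, mem_product] at hq hq'
          obtain ⟨hn, hj⟩ := hq
          obtain ⟨hn', hj'⟩ := hq'
          simp only at hn hj hn' hj' heq
          rw [hS', mem_filter, hS, mem_filter, mem_Icc] at hn hn'
          rw [mem_range] at hj hj'
          have hnb := hn.1.2.1
          have hnb' := hn'.1.2.1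
          have hRn := hn.2
          have hRn' := hn'.2
          have e2 : n + j' = n' + j := by omega
          have e3 : n ≡ n' [MOD W] := hnb.trans hnb'.symm
          have e4 : n + j' ≡ n + j [MOD W] := by
            rw [e2]
            exact Nat.ModEq.add_right _ e3.symm
          have e5 : j' ≡ j [MOD W] := Nat.ModEq.add_left_cancel' n e4
          have e6 : j' = j := Nat.ModEq.eq_of_lt_of_lt e5 hj' hj
          have e7 : n = n' := by omega
          rw [e6, e7]
      rwa [card_product, card_range] at e1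
    have hW0 : (0 : ℝ) < W := by exact_mod_cast hWpos
    have r1 : c * N ≤ (S.card : ℝ) * W := by
      have := h6
      rw [← mul_div_assoc, div_le_iff₀ hW0] at this
      exact this
    have r2 : (S.card : ℝ) ≤ S'.card + R := by exact_mod_cast hcardS
    have r3 : (S'.card : ℝ) * W ≤ G.card := by exact_mod_cast hcardG
    have r4 : (R : ℝ) ≤ Real.sqrt N + 1 + Real.log N ^ 2 := by
      have := Real.nat_sqrt_le_real_sqrt (a := N)
      rw [hR]
      push_cast
      linarith
    have r5 : (R : ℝ) * W ≤ c / 2 * N := by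
      have hR0 : (0 : ℝ) ≤ R := Nat.cast_nonneg R
      calc (R : ℝ) * W ≤ (Real.sqrt N + 1 + Real.log N ^ 2) * Real.log N ^ 2 := by
            apply mul_le_mul r4 hWle hW0.le
            linarith
        _ = Real.log N ^ 2 * (Real.sqrt N + 1 + Real.log N ^ 2) := by ring
        _ ≤ c / 2 * N := h2
    have r6 : (S.card : ℝ) * W ≤ (S'.card + R) * W := mul_le_mul_of_nonneg_right r2 hW0.le
    nlinarith
  obtain ⟨N₀, hN₀⟩ := eventually_atTop.1 main
  exact ⟨N₀, hN₀⟩

end Pool.Agent.H474R4.BG
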