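import Pool.Agent.H387R2.MB11

/-!
Project BG (helper474): bounded gaps in a positive proportion of all intervals of polylogarithmic
length.  Uses the lower and upper bounds `Low`, `Upp` of helper387 (Maynard sieve restricted to
rough numbers, arbitrary shifts up to a power of log N, every class modulo WW y).
-/

set_option autoImplicit false

open Finset Filter

namespace Pool.Agent.H474R4.BG

open Pool.Agent.H387R2 Pool.Agent.H387R2.MB Pool.Agent.H378R2

/-- the modulus -/
noncomputable def WN (N : ℕ) : ℕ := Uni.WW ⌊Real.log (Real.log N)⌋₊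

open Classical in
/-- BG1: one class: a positive proportion of the n ≡ b (mod W) have a translate n + W i,
W i <= log^(K+3) N, such that k + 1 of the n + W i + h, h ∈ H, are prime -/
def ClassBG : Prop := ∀ k : ℕ, ∃ (K : ℕ) (c : ℝ), 1 ≤ K ∧ 0 < c ∧ ∀ H : Finset ℕ, H.card = K →
  ∀ᶠ N : ℕ in atTop, ∀ b : ℕ, (∀ h ∈ H, Nat.Coprime (WN N) (b + h)) →
    c * ((N : ℝ) / WN N) ≤ (((Icc 1 N).filter (fun n => n ≡ b [MOD WN N] ∧
      ∃ i : ℕ, ((WN N * i : ℕ) : ℝ) ≤ Real.log N ^ (K + 3) ∧
        k + 1 ≤ (H.filter (fun h => (n + WN N * i + h).Prime)).card)).card : ℝ)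

open Classical in
/-- BG2: a positive proportion of the intervals (x, x + (log x)^A] contain m primes in an interval
of length B -/
def FinalBG : Prop := ∀ m : ℕ, ∃ (A B : ℕ) (c : ℝ), 0 < c ∧ ∃ N₀ : ℕ, ∀ N : ℕ, N₀ ≤ N →
  c * N ≤ (((range N).filter (fun x : ℕ => ∃ p : ℕ, x < p ∧ (p + B : ℝ) ≤ x + Real.log x ^ A ∧
    m ≤ ((Icc p (p + B)).filter Nat.Prime).card)).card : ℝ)

end Pool.Agent.H474R4.BG
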