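import Pool.Agent.H474R4.BG.Iface

set_option autoImplicit false

namespace Pool.Agent.H474R4.BG

/-- BG1, file Class.lean -/
theorem classBG : ClassBG := by sorry

/-- BG2, file Final.lean -/
theorem finalBG_of (h : ClassBG) : FinalBG := by sorry

end Pool.Agent.H474R4.BG
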